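import Mathlib
import Pool.Agent.MP_d395f7_lc.H36.Wrap
import Pool.Agent.MP_d395f7_lc.H9.Main

namespace Pool.Agent.Results.MP_d395f7_lc.NotExistential

theorem result : ¬ ∃ (m : ℕ) (a : Fin m → Polynomial ℂ)
    (φ : FirstOrder.Language.ring.Formula (Fin 2 ⊕ Fin m)),
    FirstOrder.Language.BoundedFormula.IsExistential φ ∧
      ∀ f g : Polynomial ℂ, f.degree = g.degree ↔
        Pool.Agent.MP_d395f7_lc.H36.Holds φ (Sum.elim ![f, g] a) :=
  Pool.Agent.MP_d395f7_lc.H36.wrap Pool.Agent.MP_d395f7_lc.H9.mainS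

end Pool.Agent.Results.MP_d395f7_lc.NotExistential
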