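import Mathlib
import Pool.Agent.MP_d395f7_lc.H51.Deg

namespace Pool.Agent.Results.MP_d395f7_lc.OneForall

theorem result : ∃ (n : ℕ) (P : MvPolynomial (Fin 4 ⊕ Fin n) ℤ),
    ∀ (K : Type) [Field K] [IsAlgClosed K] (f g : Polynomial K), f.degree = g.degree ↔
      ∀ u : Polynomial K, ∃ z : Fin n → Polynomial K,
        MvPolynomial.aeval (Sum.elim ![Polynomial.X, f, g, u] z) P = 0 := by
  refine ⟨13 + 13, Pool.Agent.MP_d395f7_lc.H51.E2 (MvPolynomial.X (Sum.inl 0))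
    (MvPolynomial.X (Sum.inl 1)) (MvPolynomial.X (Sum.inl 2)) (MvPolynomial.X (Sum.inl 3))
    fun i => MvPolynomial.X (Sum.inr i), fun K _ _ f g => ?_⟩
  rw [Pool.Agent.MP_d395f7_lc.H51.eq_formula]
  refine forall_congr' fun u => exists_congr fun z => ?_
  have h := Pool.Agent.MP_d395f7_lc.H51.map_E2
    (MvPolynomial.aeval (R := ℤ) (Sum.elim ![Polynomial.X, f, g, u] z)).toRingHom
    (MvPolynomial.X (Sum.inl 0)) (MvPolynomial.X (Sum.inl 1)) (MvPolynomial.X (Sum.inl 2))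
    (MvPolynomial.X (Sum.inl 3)) fun i => MvPolynomial.X (Sum.inr i)
  simp only [AlgHom.toRingHom_eq_coe, RingHom.coe_coe, MvPolynomial.aeval_X, Sum.elim_inl,
    Sum.elim_inr] at h
  rw [h]
  rfl

end Pool.Agent.Results.MP_d395f7_lc.OneForall
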